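import Pool.Agent.X2.BaumSweet

/-!
# MP_0f6055_nt, Q1: the zero positions of generalized Baum–Sweet sequences are never regular
-/

namespace Pool.Agent.Results.MP_0f6055_nt.NotRegular

open Pool.Agent.X2.BaumSweet

/-- Q1, negative answer for every `r ≥ 2`: `h r` is the strictly increasing enumeration of the
zeros of the generalized Baum–Sweet sequence `b^{(r)}`, and it is not `k`-regular for any
`k ≥ 2`. -/
theorem result (r : ℕ) (hr : 2 ≤ r) :
    StrictMono (h r) ∧ Set.range (h r) = {m | b r m = 0} ∧
      ∀ k : ℕ, 2 ≤ k → ¬ Regular k (fun n => (h r n : ℤ)) :=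
  ⟨h_strictMono hr, h_range hr, fun _ hk => not_regular hr hk⟩

end Pool.Agent.Results.MP_0f6055_nt.NotRegular
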